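import Mathlib
import Pool.Agent.Run7.h103.PF.Each
import Pool.Agent.Results.MP_c2395a_nt.SimultaneousApproximation
import Pool.Agent.Run7.h795.UW.Fin3

set_option autoImplicit false

/-!
# Many odd zeta values with unpredictable digits

Let `F` be a finite set of pairwise multiplicatively independent bases. We prove that at least
`(1 / 1000) √(s log log s / log s)` of the numbers `ζ(3), ζ(5), …, ζ(s)` (`s` odd) have digits which cannot
be predicted by automata, in all bases of `F` but one (which may depend on the number): for every `A`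
there is `R` such that for all `M ≥ R (K + 1)` there are so many odd `i ≤ s` for which every
automaton with at most `K` states which reads the digits of `ζ(i)` in base `b` one by one and predicts
the next one makes more than `A log (M / (K + 1))` errors among the first `M` digits. The digits can
be replaced by their differences with arbitrary words of linear block complexity. The same holds in
windows: of the odd `i` between `s` and `N s` at least `(1 / 10000) √(N log log N / log N)` have this
property, for every odd `s` and every `N ≥ N₀`. (The digits of a rational number are predicted by an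
automaton with finitely many errors, so this contains the irrationality of so many odd zeta values.)

Proof. The starting result `SimultaneousApproximation` on this problem says that for every large `q`
so many of these numbers have a distance at least `1 / q` between `q ζ(i)` and the integers; for the
windows this was proved today by helper795 and others (`SimultaneousWindows`, `Run7/h795/UW`). The
numbers which are predictable in two bases of `F` belong, along a sequence of scales, to the fields of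
represented numbers of the starting files `Pool.Agent.TH796.AL` (subspace theorem with moving forms)
for two subspaces of characters with trivial intersection, and therefore they have simultaneous
rational approximations of every order. The representation of numbers with predicted digits is
proved with the terms computed in the starting files `Pool.Agent.R473.TB`.
-/

namespace Pool.Agent.Results.MP_c2395a_nt.ManyUnpredictableZetaValues

open Pool.Agent.Run7.h103.PF

/-- `ζ(i)` -/
noncomputable def zeta (i : ℕ) : ℝ := ∑' n : ℕ, 1 / ((n : ℝ) + 1) ^ i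

/-- from simultaneous approximations to predictors -/
lemma count {W : Finset ℕ} {k : ℝ} {q0 : ℕ} (hq0 : ∀ q : ℕ, q0 ≤ q → k ≤
      (Set.ncard {i : ℕ | i ∈ W ∧ ∀ p : ℤ, (q : ℝ)⁻¹ ≤ |(q : ℝ) * zeta i - p|} : ℝ))
    (F : Finset ℕ) (hF2 : ∀ b ∈ F, 2 ≤ b)
    (hF : ∀ b ∈ F, ∀ c ∈ F, b ≠ c → Independent b c)
    (C : ℝ) (u : ℕ → ℕ → ℕ → ℤ) (hu : ∀ b ∈ F, ∀ i, SimpleWord b C (u b i)) (A : ℝ) :
    ∃ R : ℕ, ∀ M K : ℕ, R * (K + 1) ≤ M → k ≤
      (Set.ncard {i : ℕ | i ∈ W ∧ ∃ c : ℕ, ∀ b ∈ F, b ≠ c →
        Unpredictable b (u b i) (zeta i) M K (A * Real.log (M / (K + 1)))} : ℝ) := by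
  classical
  have hcount : ∀ P : ℕ → Prop, Set.ncard {i : ℕ | i ∈ W ∧ P i} =
      Set.ncard {j : W | P (j : ℕ)} := by
    intro P
    rw [← Set.ncard_image_of_injective _ (Subtype.val_injective (p := fun i => i ∈ W))]
    congr 1
    ext i
    constructor
    · rintro ⟨h1, h4⟩
      exact ⟨⟨i, h1⟩, h4, rfl⟩
    · rintro ⟨j, h4, rfl⟩
      exact ⟨j.2, h4⟩
  obtain ⟨R, hR⟩ := each_card (κ := W) (fun j => zeta (j : ℕ)) F hF2 hF
    (fun b j => u b (j : ℕ)) (fun b hb j => hu b hb _) A k 2 (max q0 2) (by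
      intro q hq p
      have hq1 : q0 ≤ q := (le_max_left _ _).trans hq
      have hq2 : 2 ≤ q := (le_max_right _ _).trans hq
      have hqr : (2 : ℝ) ≤ q := by exact_mod_cast hq2
      refine (hq0 q hq1).trans ?_
      rw [hcount (fun i => ∀ p : ℤ, (q : ℝ)⁻¹ ≤ |(q : ℝ) * zeta i - p|)]
      have hsub : {j : W | ∀ p : ℤ, (q : ℝ)⁻¹ ≤ |(q : ℝ) * zeta (j : ℕ) - p|} ⊆
          {j : W | 1 < |q * zeta (j : ℕ) - p j| * (q : ℝ) ^ 2} := by
        intro j hj
        have h2 : (q : ℝ)⁻¹ ≤ |(q : ℝ) * zeta (j : ℕ) - p j| := hj (p j)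
        change 1 < |(q : ℝ) * zeta (j : ℕ) - p j| * (q : ℝ) ^ 2
        have h3 : (q : ℝ)⁻¹ * (q : ℝ) ^ 2 = q := by field_simp
        have h4 : (q : ℝ)⁻¹ * (q : ℝ) ^ 2 ≤ |(q : ℝ) * zeta (j : ℕ) - p j| * (q : ℝ) ^ 2 := by
          gcongr
        linarith
      exact_mod_cast Set.ncard_le_ncard hsub (Set.toFinite _))
  refine ⟨R, fun M K hMK => ?_⟩
  rw [hcount (fun i => ∃ c : ℕ, ∀ b ∈ F, b ≠ c →
    Unpredictable b (u b i) (zeta i) M K (A * Real.log (M / (K + 1))))]
  exact hR M K hMK

lemma loglog {s : ℕ} {a : ℝ} (hs : ⌈Real.exp (Real.exp a)⌉₊ ≤ s) :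
    a ≤ Real.log (Real.log s) := by
  have hs2 : Real.exp (Real.exp a) ≤ s := by
    have h1 : Real.exp (Real.exp a) ≤ (⌈Real.exp (Real.exp a)⌉₊ : ℝ) := Nat.le_ceil _
    have h2 : (⌈Real.exp (Real.exp a)⌉₊ : ℝ) ≤ s := by exact_mod_cast hs
    exact h1.trans h2
  have h1 : Real.exp a ≤ Real.log s := by
    rw [Real.le_log_iff_exp_le ((Real.exp_pos _).trans_le hs2)]
    exact hs2
  rw [Real.le_log_iff_exp_le ((Real.exp_pos _).trans_le h1)]
  exact h1

/-- Let `F` be a finite set of pairwise multiplicatively independent bases.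

(1) For every large `s`, all words `u_{b,i}` of linear block complexity over `{0, ..., b - 1}` and every
`A` there is `R` such that for all `M`, `K` with `R (K + 1) ≤ M` at least
`(1 / 1000) √(s log log s / log s)` of the odd `i` between `3` and `s` have the following property: in all
bases of `F` but at most one every predictor with at most `K` states which reads the differences
between the digits of `ζ(i)` and the letters of `u_{b,i}` makes more than `A log (M / (K + 1))` wrong
predictions among the first `M` places.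

(2) There is `N₀` such that for all `N ≥ N₀`, all odd `s`, all words `u_{b,i}` and every `A` there is `R`
such that for all `M`, `K` with `R (K + 1) ≤ M` at least `(1 / 10000) √(N log log N / log N)` of the odd `i`
with `s < i ≤ N s` have this property. -/
theorem result :
    (∃ s₀ : ℕ, ∀ s ≥ s₀, ∀ F : Finset ℕ, (∀ b ∈ F, 2 ≤ b) →
      (∀ b ∈ F, ∀ c ∈ F, b ≠ c → Independent b c) →
      ∀ (C : ℝ) (u : ℕ → ℕ → ℕ → ℤ), (∀ b ∈ F, ∀ i, SimpleWord b C (u b i)) →
      ∀ A : ℝ, ∃ R : ℕ, ∀ M K : ℕ, R * (K + 1) ≤ M →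
        (1 / 1000) * Real.sqrt (s * Real.log (Real.log s) / Real.log s) ≤
          (Set.ncard {i : ℕ | 3 ≤ i ∧ i ≤ s ∧ Odd i ∧ ∃ c : ℕ, ∀ b ∈ F, b ≠ c →
            Unpredictable b (u b i) (zeta i) M K (A * Real.log (M / (K + 1)))} : ℝ)) ∧
    (∃ N₀ : ℕ, ∀ N ≥ N₀, ∀ s : ℕ, Odd s → ∀ F : Finset ℕ, (∀ b ∈ F, 2 ≤ b) →
      (∀ b ∈ F, ∀ c ∈ F, b ≠ c → Independent b c) →
      ∀ (C : ℝ) (u : ℕ → ℕ → ℕ → ℤ), (∀ b ∈ F, ∀ i, SimpleWord b C (u b i)) →
      ∀ A : ℝ, ∃ R : ℕ, ∀ M K : ℕ, R * (K + 1) ≤ M →
        (1 / 10000) * Real.sqrt (N * Real.log (Real.log N) / Real.log N) ≤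
          (Set.ncard {i : ℕ | s < i ∧ i ≤ N * s ∧ Odd i ∧ ∃ c : ℕ, ∀ b ∈ F, b ≠ c →
            Unpredictable b (u b i) (zeta i) M K (A * Real.log (M / (K + 1)))} : ℝ)) := by
  constructor
  · obtain ⟨s0, hs0⟩ := Pool.Agent.Results.MP_c2395a_nt.SimultaneousApproximation.result
    refine ⟨max s0 ⌈Real.exp (Real.exp 1000)⌉₊, fun s hs F hF2 hF C u hu A => ?_⟩
    have hs1 : s0 ≤ s := (le_max_left _ _).trans hs
    have hlog := loglog ((le_max_right _ _).trans hs)
    obtain ⟨q0, hq0⟩ := hs0 s hs1 1 le_rfl (by push_cast; linarith)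
    have hW : ∀ P : ℕ → Prop, {i : ℕ | 3 ≤ i ∧ i ≤ s ∧ Odd i ∧ P i} =
        {i : ℕ | i ∈ (Finset.Icc 3 s).filter Odd ∧ P i} := by
      intro P
      ext i
      simp only [Set.mem_setOf_eq, Finset.mem_filter, Finset.mem_Icc]
      tauto
    obtain ⟨R, hR⟩ := count (W := (Finset.Icc 3 s).filter Odd)
      (k := (1 / 1000) * Real.sqrt (s * Real.log (Real.log s) / Real.log s)) (q0 := q0) (by
        intro q hq
        have h1 := hq0 q hq
        rw [Nat.cast_one, div_one, hW (fun i => ∀ p : ℤ, (q : ℝ) ^ (-(1 / (1 : ℝ))) ≤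
          |(q : ℝ) * (∑' n : ℕ, 1 / ((n : ℝ) + 1) ^ i) - p|)] at h1
        simp only [div_one, Real.rpow_neg_one] at h1
        exact h1) F hF2 hF C u hu A
    refine ⟨R, fun M K hMK => ?_⟩
    rw [hW]
    exact hR M K hMK
  · obtain ⟨N0, hN0⟩ := Run7.h795.UW.z_sim
    refine ⟨max N0 ⌈Real.exp (Real.exp 10000)⌉₊, fun N hN s hs F hF2 hF C u hu A => ?_⟩
    have hN1 : N0 ≤ N := (le_max_left _ _).trans hN
    have hlog := loglog ((le_max_right _ _).trans hN)
    obtain ⟨q0, hq0⟩ := hN0 N hN1 s hs 1 le_rfl (by push_cast; linarith)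
    have hW : ∀ P : ℕ → Prop, {i : ℕ | s < i ∧ i ≤ N * s ∧ Odd i ∧ P i} =
        {i : ℕ | i ∈ (Finset.Ioc s (N * s)).filter Odd ∧ P i} := by
      intro P
      ext i
      simp only [Set.mem_setOf_eq, Finset.mem_filter, Finset.mem_Ioc]
      tauto
    obtain ⟨R, hR⟩ := count (W := (Finset.Ioc s (N * s)).filter Odd)
      (k := (1 / 10000) * Real.sqrt (N * Real.log (Real.log N) / Real.log N)) (q0 := q0) (by
        intro q hq
        have h1 := hq0 q hq
        rw [Nat.cast_one, div_one, hW (fun i => ∀ p : ℤ, (q : ℝ) ^ (-(1 / (1 : ℝ))) ≤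
          |(q : ℝ) * (∑' n : ℕ, 1 / ((n : ℝ) + 1) ^ i) - p|)] at h1
        simp only [div_one, Real.rpow_neg_one] at h1
        exact h1) F hF2 hF C u hu A
    refine ⟨R, fun M K hMK => ?_⟩
    rw [hW]
    exact hR M K hMK

end Pool.Agent.Results.MP_c2395a_nt.ManyUnpredictableZetaValues
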