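import Mathlib
import Pool.Agent.Run7.h103.PF.Meas
import Pool.Agent.Results.MP_a89d6d_nt.MeasurePiSquaredZetaThree

set_option autoImplicit false

/-!
# `1, π², ζ(3)` over fields of numbers with predictable digits

By the starting files `1, π², ζ(3)` are linearly independent over `ℚ`, with a measure. We prove a
theorem on their linear independence over much larger fields. Let `a` and `b` be multiplicatively
independent bases, for instance `2` and `10`, and let `c_0 + c_1 π² + c_2 ζ(3) = 0` with real numbers
`c_0, c_1, c_2` not all zero. Then the digits of `π²` or `ζ(3)` in base `a` or the digits of one of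
`c_0, c_1, c_2` in base `b` cannot be predicted by automata: for every `A` there is `R` such that for
`M ≥ R (K + 1)`, for one of these five numbers every automaton with at most `K` states which reads its
digits one by one and predicts the next one makes more than `A log (M / (K + 1))` errors among the
first `M` digits. So if `π²` and `ζ(3)` are predictable in base `a` then `1, π², ζ(3)` are linearly
independent over the field generated by all the numbers which are predictable in base `b`. The general
statement is for arbitrary numbers with a measure of linear independence, and for the fields generated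
by numbers with predictable digits in two sets of bases which generate subgroups of `ℚˣ` with trivial
intersection.

Proof. Otherwise the coefficients and the numbers would belong, along a sequence of scales, to the
fields of represented numbers of the starting files `Pool.Agent.TH796.AL` (subspace theorem with
moving forms) for two subspaces of characters with trivial intersection; these fields are linearly
disjoint over the field of germs of rational numbers, and this gives linear relations with integer
coefficients which are too small. The representation of numbers with predicted digits is proved with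
the terms computed in the starting files `Pool.Agent.R473.TB`.
-/

namespace Pool.Agent.Results.MP_a89d6d_nt.OverPredictableFields

open Pool.Agent.Run7.h103.PF

/-- `ζ(3)` -/
noncomputable def zeta3 : ℝ := ∑' n : ℕ, 1 / ((n : ℝ) + 1) ^ 3

/-- the subgroup of the multiplicative group of `ℚ` generated by `A` -/
def group (A : Set ℕ) : Subgroup ℚˣ := Subgroup.closure {u | ∃ b ∈ A, ((u : ℚˣ) : ℚ) = b}

/-- a measure of linear independence over `ℚ`, polynomial in the size of the coefficients -/
def LinearMeasure {s : ℕ} (z : Fin s → ℝ) : Prop :=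
  ∃ w Q : ℕ, ∀ a : Fin s → ℤ, a ≠ 0 → ∀ H : ℕ, Q ≤ H → (∀ j, |a j| ≤ H) →
    1 < |∑ j, (a j : ℝ) * z j| * (H : ℝ) ^ w

/-- the measure for `1, π², ζ(3)` -/
theorem measure : LinearMeasure ![1, Real.pi ^ 2, zeta3] := by
  obtain ⟨c, hc, κ, hκ, h⟩ := Pool.Agent.Results.MP_a89d6d_nt.MeasurePiSquaredZetaThree.base
  obtain ⟨w', c', hc', h'⟩ := pi_sq_lin
  obtain ⟨k, hk⟩ := exists_nat_ge κ
  set d : ℝ := min c c' with hd
  have hd0 : 0 < d := lt_min hc hc'
  obtain ⟨Q, hQ⟩ := exists_nat_ge (1 / d + 1)
  refine ⟨k + w' + 1, max Q 1, fun a ha H hH haH => ?_⟩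
  have hH1 : 1 ≤ H := (le_max_right _ _).trans hH
  have hHr : (1 : ℝ) ≤ H := by exact_mod_cast hH1
  have hH0 : (0 : ℝ) < H := by linarith
  have hHQ : 1 / d + 1 ≤ (H : ℝ) := hQ.trans (by exact_mod_cast (le_max_left _ _).trans hH)
  have hdH : 1 < d * H := by
    have : 1 / d < H := by linarith
    rw [div_lt_iff₀ hd0] at this
    linarith
  have habs : ∀ j, |(a j : ℝ)| ≤ H := fun j => by
    rw [← Int.cast_abs]
    exact_mod_cast haH j
  have hsum : ∑ j, (a j : ℝ) * (![1, Real.pi ^ 2, zeta3] : Fin 3 → ℝ) j =
      (a 0 : ℝ) + a 1 * Real.pi ^ 2 + a 2 * zeta3 := by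
    rw [Fin.sum_univ_three]
    simp only [Matrix.cons_val_zero, Matrix.cons_val_one, Matrix.cons_val, mul_one]
  rw [hsum]
  set T : ℝ := |(a 0 : ℝ) + a 1 * Real.pi ^ 2 + a 2 * zeta3| with hT
  have hTd : d ≤ T * (H : ℝ) ^ (k + w') := by
    by_cases ha2 : a 2 = 0
    · have hne : a 0 ≠ 0 ∨ a 1 ≠ 0 := by
        by_contra hcon
        push Not at hcon
        apply ha
        funext j
        fin_cases j
        · exact hcon.1
        · exact hcon.2
        · exact ha2
      have h1 := h' (a 0) (a 1) hne H hHr (habs 0) (habs 1)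
      have h2 : T = |(a 0 : ℝ) + a 1 * Real.pi ^ 2| := by
        rw [hT, ha2]
        simp
      rw [h2]
      calc d ≤ c' := min_le_right _ _
        _ ≤ (H : ℝ) ^ w' * |(a 0 : ℝ) + a 1 * Real.pi ^ 2| := h1
        _ ≤ (H : ℝ) ^ (k + w') * |(a 0 : ℝ) + a 1 * Real.pi ^ 2| := by
            gcongr
            omega
        _ = _ := mul_comm _ _
    · have h1 := h (a 0) (a 1) (a 2) H hHr ha2 (habs 1) (habs 2)
      have h2 : c * (H : ℝ) ^ (-κ) ≤ T := h1
      have h3 : (H : ℝ) ^ (-κ) * (H : ℝ) ^ k ≥ 1 := by
        rw [← Real.rpow_natCast, ← Real.rpow_add hH0]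
        exact Real.one_le_rpow hHr (by linarith)
      calc d ≤ c := min_le_left _ _
        _ = c * 1 := (mul_one c).symm
        _ ≤ c * ((H : ℝ) ^ (-κ) * (H : ℝ) ^ k) := by gcongr
        _ = c * (H : ℝ) ^ (-κ) * (H : ℝ) ^ k := by ring
        _ ≤ T * (H : ℝ) ^ k := by gcongr
        _ ≤ T * (H : ℝ) ^ (k + w') := by
            have : 0 ≤ T := abs_nonneg _
            gcongr
            omega
  calc (1 : ℝ) < d * H := hdH
    _ ≤ T * (H : ℝ) ^ (k + w') * H := by gcongr
    _ = T * (H : ℝ) ^ (k + w' + 1) := by ring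

/-- (1) Let `a_i` and `b_j` be finitely many bases, such that the subgroups of `ℚˣ` generated by the
`a_i` and by the `b_j` have trivial intersection; let `u_i` and `v_j` be words of linear block complexity
over `{0, ..., a_i - 1}` and `{0, ..., b_j - 1}`, and let `x_i` and `y_j` be real numbers. Let
`z_1, …, z_s` be numbers with a measure of linear independence over `ℚ` in the field generated by
the `x_i`, and let `∑ c_j z_j = 0` for numbers `c_j`, not all zero, in the field generated by the `y_j`. For
every `A` there is `R` such that for all `M`, `K` with `R (K + 1) ≤ M` one of the `x_i` or one of the `y_j`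
is such that every predictor with at most `K` states which reads the differences between its digits (in
base `a_i` or `b_j`) and the letters of `u_i` or `v_j` makes more than `A log (M / (K + 1))` wrong
predictions among the first `M` places.

(2) The numbers `1, π², ζ(3)` have a measure of linear independence. (3) So if
`c_0 + c_1 π² + c_2 ζ(3) = 0` with real `c_0, c_1, c_2` not all zero, then for independent bases `a`, `b`
one of `π²`, `ζ(3)` has this property in base `a`, or one of `c_0, c_1, c_2` in base `b`. -/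
theorem result :
    (∀ (κ κ' : Type) [Fintype κ] [Fintype κ'] (a : κ → ℕ) (b : κ' → ℕ), (∀ i, 2 ≤ a i) →
      (∀ j, 2 ≤ b j) → group (Set.range a) ⊓ group (Set.range b) = ⊥ →
      ∀ (C : ℝ) (u : κ → ℕ → ℤ) (v : κ' → ℕ → ℤ), (∀ i, SimpleWord (a i) C (u i)) →
      (∀ j, SimpleWord (b j) C (v j)) → ∀ (x : κ → ℝ) (y : κ' → ℝ) (s : ℕ) (z c : Fin s → ℝ),
      LinearMeasure z → (∀ j, z j ∈ Subfield.closure (Set.range x)) →
      (∀ j, c j ∈ Subfield.closure (Set.range y)) → (∃ j, c j ≠ 0) → ∑ j, c j * z j = 0 →
      ∀ A : ℝ, ∃ R : ℕ, ∀ M K : ℕ, R * (K + 1) ≤ M →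
        (∃ i, Unpredictable (a i) (u i) (x i) M K (A * Real.log (M / (K + 1)))) ∨
        (∃ j, Unpredictable (b j) (v j) (y j) M K (A * Real.log (M / (K + 1))))) ∧
    LinearMeasure ![1, Real.pi ^ 2, zeta3] ∧
    (∀ a b : ℕ, 2 ≤ a → 2 ≤ b → Independent a b → ∀ (C : ℝ) (u : Fin 2 → ℕ → ℤ)
      (v : Fin 3 → ℕ → ℤ), (∀ i, SimpleWord a C (u i)) → (∀ j, SimpleWord b C (v j)) →
      ∀ c : Fin 3 → ℝ, (∃ j, c j ≠ 0) → c 0 + c 1 * Real.pi ^ 2 + c 2 * zeta3 = 0 →
      ∀ A : ℝ, ∃ R : ℕ, ∀ M K : ℕ, R * (K + 1) ≤ M →
        Unpredictable a (u 0) (Real.pi ^ 2) M K (A * Real.log (M / (K + 1))) ∨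
        Unpredictable a (u 1) zeta3 M K (A * Real.log (M / (K + 1))) ∨
        ∃ j, Unpredictable b (v j) (c j) M K (A * Real.log (M / (K + 1)))) := by
  have part1 : ∀ (κ κ' : Type) [Fintype κ] [Fintype κ'] (a : κ → ℕ) (b : κ' → ℕ), (∀ i, 2 ≤ a i) →
      (∀ j, 2 ≤ b j) → group (Set.range a) ⊓ group (Set.range b) = ⊥ →
      ∀ (C : ℝ) (u : κ → ℕ → ℤ) (v : κ' → ℕ → ℤ), (∀ i, SimpleWord (a i) C (u i)) →
      (∀ j, SimpleWord (b j) C (v j)) → ∀ (x : κ → ℝ) (y : κ' → ℝ) (s : ℕ) (z c : Fin s → ℝ),
      LinearMeasure z → (∀ j, z j ∈ Subfield.closure (Set.range x)) →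
      (∀ j, c j ∈ Subfield.closure (Set.range y)) → (∃ j, c j ≠ 0) → ∑ j, c j * z j = 0 →
      ∀ A : ℝ, ∃ R : ℕ, ∀ M K : ℕ, R * (K + 1) ≤ M →
        (∃ i, Unpredictable (a i) (u i) (x i) M K (A * Real.log (M / (K + 1)))) ∨
        (∃ j, Unpredictable (b j) (v j) (y j) M K (A * Real.log (M / (K + 1)))) := by
    intro κ κ' _ _ a b ha hb hab C u v hu hv x y s z c hz hzx hcy hne hsum A
    exact linear_rel x y a b ha hb hab C u v hu hv A z c hz hzx hcy (by
      rw [← hsum]
      exact Finset.sum_congr rfl fun j _ => mul_comm _ _) hne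
  refine ⟨part1, measure, ?_⟩
  intro a b ha hb hab C u v hu hv c hne hsum A
  obtain ⟨R, hR⟩ := part1 (Fin 2) (Fin 3) (fun _ => a) (fun _ => b) (fun _ => ha) (fun _ => hb) (by
      rw [Set.range_const, Set.range_const]
      exact Pool.Agent.TH796.AL.Ai.group_inf ha hb hab) C u v hu hv ![Real.pi ^ 2, zeta3] c 3
    ![1, Real.pi ^ 2, zeta3] c measure (by
      intro j
      fin_cases j
      · exact Subfield.one_mem _
      · exact Subfield.subset_closure ⟨0, rfl⟩
      · exact Subfield.subset_closure ⟨1, rfl⟩) (fun j => Subfield.subset_closure ⟨j, rfl⟩) hne (by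
      rw [Fin.sum_univ_three]
      simp only [Matrix.cons_val_zero, Matrix.cons_val_one, Matrix.cons_val, mul_one]
      exact hsum) A
  refine ⟨R, fun M K hMK => ?_⟩
  rcases hR M K hMK with ⟨i, hi⟩ | h
  · fin_cases i
    · exact Or.inl hi
    · exact Or.inr (Or.inl hi)
  · exact Or.inr (Or.inr h)

end Pool.Agent.Results.MP_a89d6d_nt.OverPredictableFields
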