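import Mathlib
import Pool.Agent.Run7.h103.PF.Each
import Pool.Agent.H337R2.LZ.Z

set_option autoImplicit false

/-!
# `1, π², ζ(3)` over the algebraic numbers, or unpredictable digits

By the starting files the numbers `1, π², ζ(3)` are linearly independent over `ℚ`. If they are linearly
dependent over the field of real algebraic numbers, for instance if `ζ(3)` is algebraic or if
`ζ(3) - α π²` is algebraic for some algebraic `α`, then for arbitrary bases `a` and `b` the digits of `π²`
in base `a` or those of `ζ(3)` in base `b` cannot be predicted by automata: for every `A` there is `R`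
such that for `M ≥ R (K + 1)`, every automaton with at most `K` states which reads the digits of `π²` in
base `a` one by one and predicts the next one makes more than `A log (M / (K + 1))` errors among the
first `M` digits, or this is so for the digits of `ζ(3)` in base `b`. More generally, if `π²` and `ζ(3)`
are in the field generated by real numbers `y_i`, then this is so for one of the `y_i`, in arbitrary
bases `b_i`; if `ζ(3)` is algebraic, it suffices that `ζ(3)` is in this field.

This is an application of a theorem for arbitrary real numbers `z_j` (part (1)): if they are linearly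
independent over `ℚ` and linearly dependent over the real algebraic numbers, then they are not in a field
generated by numbers with predictable digits.

Proof. Otherwise, along a sequence of scales, the `y_i` would be represented numbers in the sense of
the starting files `Pool.Agent.TH796.AL` (subspace theorem with moving forms), and the field
generated by represented numbers is linearly disjoint from the field of algebraic numbers. The
representation of numbers with predicted digits is proved with the terms computed in the starting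
files `Pool.Agent.R473.TB`.
-/

namespace Pool.Agent.Results.MP_48b3e2_nt.OverTheAlgebraicNumbers

open Pool.Agent.Run7.h103.PF

/-- `ζ(3)` -/
noncomputable def zeta3 : ℝ := ∑' n : ℕ, 1 / ((n : ℝ) + 1) ^ 3

/-- `1, π², ζ(3)` are linearly independent over `ℚ` (starting files) -/
lemma indep : LinearIndependent ℚ ![(1 : ℝ), Real.pi ^ 2, zeta3] := by
  have h1 := Pool.Agent.LZ.Z3_linind
  rw [Fintype.linearIndependent_iff] at h1 ⊢
  intro g hg
  have e2 : Pool.Agent.H337R2.zr 2 = Real.pi ^ 2 / 6 := Pool.Agent.LZ.Z2_value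
  have e3 : Pool.Agent.H337R2.zr 3 = zeta3 := rfl
  have h2 := h1 ![g 0, 6 * g 1, g 2] (by
    rw [Fin.sum_univ_three] at hg ⊢
    simp only [Matrix.cons_val_zero, Matrix.cons_val_one, Matrix.cons_val, Rat.smul_def] at hg ⊢
    rw [e2, e3]
    push_cast
    linarith)
  intro i
  fin_cases i
  · exact h2 0
  · have h3 : 6 * g 1 = 0 := h2 1
    have h4 : g 1 = 0 := by linarith
    exact h4
  · exact h2 2

/-- the general theorem -/
theorem main {κ : Type} [Fintype κ] (b : κ → ℕ) (hb : ∀ i, 2 ≤ b i) (C : ℝ) (u : κ → ℕ → ℤ)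
    (hu : ∀ i, SimpleWord (b i) C (u i)) (y : κ → ℝ) {s : ℕ} (z α : Fin s → ℝ)
    (hz : ∀ j, z j ∈ Subfield.closure (Set.range y)) (hind : LinearIndependent ℚ z)
    (hα : ∀ j, IsAlgebraic ℚ (α j)) (hne : ∃ j, α j ≠ 0) (hsum : ∑ j, α j * z j = 0) (A : ℝ) :
    ∃ R : ℕ, ∀ M K : ℕ, R * (K + 1) ≤ M →
      ∃ i, Unpredictable (b i) (u i) (y i) M K (A * Real.log (M / (K + 1))) := by
  obtain ⟨R, hR⟩ := over_algebraic b hb u (fun i => simple_of (hu i)) y A z α hz hind hα hsum hne
  refine ⟨R, fun M K hMK => ?_⟩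
  obtain ⟨i, hi⟩ := hR M K hMK
  exact ⟨i, unpredictable_of hi⟩

/-- (1) Let `z_1, …, z_s` be real numbers which are linearly independent over `ℚ` and linearly
dependent over the field of real algebraic numbers: `∑ α_j z_j = 0`, with real algebraic numbers `α_j`
not all zero. Let `y_i`, `i ∈ κ`, be finitely many real numbers such that the `z_j` are in the field
generated by the `y_i`, let `b_i` be arbitrary bases and `u_i` words of linear block complexity over
`{0, ..., b_i - 1}`. For every `A` there is `R` such that for all `M`, `K` with `R (K + 1) ≤ M` there is `i`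
such that every predictor with at most `K` states which reads the differences between the digits of
`y_i` in base `b_i` and the letters of `u_i` makes more than `A log (M / (K + 1))` wrong predictions
among the first `M` places.

(2) If `α_0 + α_1 π² + α_2 ζ(3) = 0` with real algebraic numbers `α_0, α_1, α_2` not all zero, and `π²`
and `ζ(3)` are in the field generated by the `y_i`, then this holds for one of the `y_i`. In particular
(3) it holds for `π²` in base `a` or for `ζ(3)` in base `b`, for all bases `a`, `b`. -/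
theorem result :
    (∀ (s : ℕ) (z α : Fin s → ℝ), LinearIndependent ℚ z → (∀ j, IsAlgebraic ℚ (α j)) →
      (∃ j, α j ≠ 0) → ∑ j, α j * z j = 0 → ∀ (κ : Type) [Fintype κ] (y : κ → ℝ),
      (∀ j, z j ∈ Subfield.closure (Set.range y)) → ∀ b : κ → ℕ, (∀ i, 2 ≤ b i) →
      ∀ (C : ℝ) (u : κ → ℕ → ℤ), (∀ i, SimpleWord (b i) C (u i)) →
      ∀ A : ℝ, ∃ R : ℕ, ∀ M K : ℕ, R * (K + 1) ≤ M →
        ∃ i, Unpredictable (b i) (u i) (y i) M K (A * Real.log (M / (K + 1)))) ∧
    (∀ α₀ α₁ α₂ : ℝ, IsAlgebraic ℚ α₀ → IsAlgebraic ℚ α₁ → IsAlgebraic ℚ α₂ →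
      (α₀ ≠ 0 ∨ α₁ ≠ 0 ∨ α₂ ≠ 0) → α₀ + α₁ * Real.pi ^ 2 + α₂ * zeta3 = 0 →
      ∀ (κ : Type) [Fintype κ] (y : κ → ℝ), Real.pi ^ 2 ∈ Subfield.closure (Set.range y) →
      zeta3 ∈ Subfield.closure (Set.range y) → ∀ b : κ → ℕ, (∀ i, 2 ≤ b i) →
      ∀ (C : ℝ) (u : κ → ℕ → ℤ), (∀ i, SimpleWord (b i) C (u i)) →
      ∀ A : ℝ, ∃ R : ℕ, ∀ M K : ℕ, R * (K + 1) ≤ M →
        ∃ i, Unpredictable (b i) (u i) (y i) M K (A * Real.log (M / (K + 1)))) ∧
    (∀ α₀ α₁ α₂ : ℝ, IsAlgebraic ℚ α₀ → IsAlgebraic ℚ α₁ → IsAlgebraic ℚ α₂ →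
      (α₀ ≠ 0 ∨ α₁ ≠ 0 ∨ α₂ ≠ 0) → α₀ + α₁ * Real.pi ^ 2 + α₂ * zeta3 = 0 →
      ∀ a b : ℕ, 2 ≤ a → 2 ≤ b → ∀ (C : ℝ) (u v : ℕ → ℤ), SimpleWord a C u → SimpleWord b C v →
      ∀ A : ℝ, ∃ R : ℕ, ∀ M K : ℕ, R * (K + 1) ≤ M →
        Unpredictable a u (Real.pi ^ 2) M K (A * Real.log (M / (K + 1))) ∨
        Unpredictable b v zeta3 M K (A * Real.log (M / (K + 1)))) := by
  have part2 : ∀ α₀ α₁ α₂ : ℝ, IsAlgebraic ℚ α₀ → IsAlgebraic ℚ α₁ → IsAlgebraic ℚ α₂ →
      (α₀ ≠ 0 ∨ α₁ ≠ 0 ∨ α₂ ≠ 0) → α₀ + α₁ * Real.pi ^ 2 + α₂ * zeta3 = 0 →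
      ∀ (κ : Type) [Fintype κ] (y : κ → ℝ), Real.pi ^ 2 ∈ Subfield.closure (Set.range y) →
      zeta3 ∈ Subfield.closure (Set.range y) → ∀ b : κ → ℕ, (∀ i, 2 ≤ b i) →
      ∀ (C : ℝ) (u : κ → ℕ → ℤ), (∀ i, SimpleWord (b i) C (u i)) →
      ∀ A : ℝ, ∃ R : ℕ, ∀ M K : ℕ, R * (K + 1) ≤ M →
        ∃ i, Unpredictable (b i) (u i) (y i) M K (A * Real.log (M / (K + 1))) := by
    intro α₀ α₁ α₂ h0 h1 h2 hne hsum κ _ y hpi hzeta b hb C u hu A
    refine main b hb C u hu y ![1, Real.pi ^ 2, zeta3] ![α₀, α₁, α₂] ?_ indep ?_ ?_ ?_ A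
    · intro j
      fin_cases j
      · exact Subfield.one_mem _
      · exact hpi
      · exact hzeta
    · intro j
      fin_cases j
      · exact h0
      · exact h1
      · exact h2
    · rcases hne with h | h | h
      · exact ⟨0, h⟩
      · exact ⟨1, h⟩
      · exact ⟨2, h⟩
    · rw [Fin.sum_univ_three]
      simp only [Matrix.cons_val_zero, Matrix.cons_val_one, Matrix.cons_val, mul_one]
      exact hsum
  refine ⟨fun s z α hind hα hne hsum κ _ y hz b hb C u hu A =>
    main b hb C u hu y z α hz hind hα hne hsum A, part2, ?_⟩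
  intro α₀ α₁ α₂ h0 h1 h2 hne hsum a b ha hb C u v hu hv A
  obtain ⟨R, hR⟩ := part2 α₀ α₁ α₂ h0 h1 h2 hne hsum (Fin 2) ![Real.pi ^ 2, zeta3]
    (Subfield.subset_closure ⟨0, rfl⟩) (Subfield.subset_closure ⟨1, rfl⟩) ![a, b] (by
      intro i
      fin_cases i
      · exact ha
      · exact hb) C ![u, v] (by
      intro i
      fin_cases i
      · exact hu
      · exact hv) A
  refine ⟨R, fun M K hMK => ?_⟩
  obtain ⟨i, hi⟩ := hR M K hMK
  fin_cases i
  · exact Or.inl hi
  · exact Or.inr hi

end Pool.Agent.Results.MP_48b3e2_nt.OverTheAlgebraicNumbers
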