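import Mathlib
import Pool.Agent.Run7.h103.PF.Defs

set_option autoImplicit false

/-!
# Predicting the digits of `π + e`, `π e` and of the coefficients of polynomials with the root `e`

One of `π + e`, `π e` is transcendental since `e` is a root of `X ^ 2 - (π + e) X + π e`. We prove
that one of the two numbers has digits which cannot be predicted by automata, in all but one of any
finite set of pairwise multiplicatively independent bases: for every `A` there is `R` such that for
`M ≥ R (K + 1)`, in all bases but one, for `π + e` or for `π e` every automaton with at most `K`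
states which reads the digits one by one and predicts the next one makes more than
`A log (M / (K + 1))` errors among the first `M` digits.

This is so for the coefficients of arbitrary real polynomials with the root `e` (or `π`, or `log q`,
or any transcendental number which is not a U-number), where one may omit the coefficients which are
algebraic numbers, for instance for `t + e` and `t e` for every real number `t`. The exceptional
base depends on `M` and `K`, but it is the same for all polynomials of a finite set; and the digits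
can be replaced by their differences with the letters of arbitrary words of linear block complexity.

The starting results on this problem on digits are about linear recurrences and about algebraic
relations for the digit sequences. (A linear recurrence of order `N` for `L` digits says nothing about
errors of predictors with few states, and conversely.)

Proof. Otherwise, along a sequence of scales, `z` would be algebraic over the fields of represented
numbers of the starting files `Pool.Agent.TH796.AL` (subspace theorem with moving forms) for two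
independent bases, and so a U-number. The representation of numbers with predicted digits is
proved with the terms computed in the starting files `Pool.Agent.R473.TB`.
-/

namespace Pool.Agent.Results.MP_a49cf6_nt.PolynomialCoefficientPredictors

open Pool.Agent.Run7.h103.PF

/-- a root of a polynomial whose coefficients are in `L` or algebraic numbers -/
lemma alg_root {L : Subfield ℝ} {Q : Polynomial ℝ} (hQ : Q ≠ 0) {z : ℝ} (hz : Q.eval z = 0)
    (h : ∀ k, Q.coeff k ∈ L ∨ IsAlgebraic ℚ (Q.coeff k)) : IsAlgebraic L z := by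
  set E := algebraicClosure L ℝ with hE
  have hcoef : ∀ k, Q.coeff k ∈ E := by
    intro k
    rw [hE, mem_algebraicClosure_iff]
    rcases h k with h1 | h1
    · exact alg_mem h1
    · exact IsAlgebraic.tower_top L h1
  have hmem : ∀ k, Q.coeff k ∈ Set.range (algebraMap E ℝ) := fun k => ⟨⟨_, hcoef k⟩, rfl⟩
  obtain ⟨P, hP⟩ := (Polynomial.mem_lifts Q).1 ((Polynomial.lifts_iff_coeff_lifts Q).2 hmem)
  have h2 : IsAlgebraic E z := by
    refine ⟨P, ?_, ?_⟩
    · rintro rfl
      rw [Polynomial.map_zero] at hP
      exact hQ hP.symm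
    · rw [Polynomial.aeval_def, Polynomial.eval₂_eq_eval_map, hP]
      exact hz
  exact IsAlgebraic.restrictScalars L h2

/-- (1) Let `z` be a transcendental number which is not a U-number, `Q_l`, `l ∈ σ`, finitely many
nonzero real polynomials with the root `z`, and `T_l` a finite set of indices such that the
coefficients of `Q_l` with an index not in `T_l` are algebraic numbers. Let `F` be a finite set of
pairwise multiplicatively independent bases, and `u_{b,l,k}` words of linear block complexity over
`{0, ..., b - 1}`. For every `A` there is `R` such that for all `M`, `K` with `R (K + 1) ≤ M` there is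
`c` such that in all bases `b ≠ c` of `F` and for all `l` there is `k ∈ T_l` such that every
predictor with at most `K` states which reads the differences between the digits of the `k`-th
coefficient of `Q_l` and the letters of `u_{b,l,k}` makes more than `A log (M / (K + 1))` wrong
predictions among the first `M` places.

(2) Let `z` be `e` or `π` or the logarithm of a positive rational number `q ≠ 1`. Then this holds for
`t_l + z` and `t_l z`, for finitely many real numbers `t_l`.

(3) In particular this is so for `π + e` and `π e`. -/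
theorem result :
    (∀ z : ℝ, Transcendental ℚ z → ¬ UNumber z → ∀ (σ : Type) [Fintype σ]
      (Q : σ → Polynomial ℝ) (T : σ → Finset ℕ), (∀ l, Q l ≠ 0) → (∀ l, (Q l).eval z = 0) →
      (∀ l, ∀ k ∉ T l, IsAlgebraic ℚ ((Q l).coeff k)) →
      ∀ F : Finset ℕ, (∀ b ∈ F, 2 ≤ b) → (∀ b ∈ F, ∀ c ∈ F, b ≠ c → Independent b c) →
      ∀ (C : ℝ) (u : ℕ → σ → ℕ → ℕ → ℤ), (∀ b ∈ F, ∀ l k, SimpleWord b C (u b l k)) →
      ∀ A : ℝ, ∃ R : ℕ, ∀ M K : ℕ, R * (K + 1) ≤ M → ∃ c : ℕ, ∀ b ∈ F, b ≠ c → ∀ l,
        ∃ k ∈ T l, Unpredictable b (u b l k) ((Q l).coeff k) M K (A * Real.log (M / (K + 1)))) ∧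
    (∀ z : ℝ, (z = Real.exp 1 ∨ z = Real.pi ∨ ∃ q : ℚ, 0 < q ∧ q ≠ 1 ∧ z = Real.log q) →
      ∀ (σ : Type) [Fintype σ] (t : σ → ℝ),
      ∀ F : Finset ℕ, (∀ b ∈ F, 2 ≤ b) → (∀ b ∈ F, ∀ c ∈ F, b ≠ c → Independent b c) →
      ∀ (C : ℝ) (u v : ℕ → σ → ℕ → ℤ), (∀ b ∈ F, ∀ l, SimpleWord b C (u b l)) →
      (∀ b ∈ F, ∀ l, SimpleWord b C (v b l)) →
      ∀ A : ℝ, ∃ R : ℕ, ∀ M K : ℕ, R * (K + 1) ≤ M → ∃ c : ℕ, ∀ b ∈ F, b ≠ c → ∀ l,
        Unpredictable b (u b l) (t l + z) M K (A * Real.log (M / (K + 1))) ∨
        Unpredictable b (v b l) (t l * z) M K (A * Real.log (M / (K + 1)))) ∧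
    (∀ F : Finset ℕ, (∀ b ∈ F, 2 ≤ b) → (∀ b ∈ F, ∀ c ∈ F, b ≠ c → Independent b c) →
      ∀ (C : ℝ) (u v : ℕ → ℕ → ℤ), (∀ b ∈ F, SimpleWord b C (u b)) →
      (∀ b ∈ F, SimpleWord b C (v b)) →
      ∀ A : ℝ, ∃ R : ℕ, ∀ M K : ℕ, R * (K + 1) ≤ M → ∃ c : ℕ, ∀ b ∈ F, b ≠ c →
        Unpredictable b (u b) (Real.pi + Real.exp 1) M K (A * Real.log (M / (K + 1))) ∨
        Unpredictable b (v b) (Real.pi * Real.exp 1) M K (A * Real.log (M / (K + 1)))) := by
  have part2 : ∀ z : ℝ, (z = Real.exp 1 ∨ z = Real.pi ∨ ∃ q : ℚ, 0 < q ∧ q ≠ 1 ∧ z = Real.log q) →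
      ∀ (σ : Type) [Fintype σ] (t : σ → ℝ),
      ∀ F : Finset ℕ, (∀ b ∈ F, 2 ≤ b) → (∀ b ∈ F, ∀ c ∈ F, b ≠ c → Independent b c) →
      ∀ (C : ℝ) (u v : ℕ → σ → ℕ → ℤ), (∀ b ∈ F, ∀ l, SimpleWord b C (u b l)) →
      (∀ b ∈ F, ∀ l, SimpleWord b C (v b l)) →
      ∀ A : ℝ, ∃ R : ℕ, ∀ M K : ℕ, R * (K + 1) ≤ M → ∃ c : ℕ, ∀ b ∈ F, b ≠ c → ∀ l,
        Unpredictable b (u b l) (t l + z) M K (A * Real.log (M / (K + 1))) ∨
        Unpredictable b (v b l) (t l * z) M K (A * Real.log (M / (K + 1))) := by
    intro z hz σ _ t F hF2 hF C u v hu hv A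
    obtain ⟨hz1, hz2⟩ := special hz
    obtain ⟨R, hR⟩ := main (κ := σ ⊕ σ) (Sum.elim (fun l => t l + z) (fun l => t l * z)) F hF2 hF
      (fun b => Sum.elim (u b) (v b)) (C := C) (by
        rintro b hb (l | l)
        · exact hu b hb l
        · exact hv b hb l) A hz1 hz2 {S | ∃ l, S = {Sum.inl l, Sum.inr l}} (by
        rintro S ⟨l, rfl⟩
        rw [Set.image_pair, Sum.elim_inl, Sum.elim_inr]
        refine alg_quad (p := -(t l + z)) (q := t l * z) ?_ ?_ (by ring)
        · exact Subfield.neg_mem _ (Subfield.subset_closure (by simp))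
        · exact Subfield.subset_closure (by simp))
    refine ⟨R, fun M K hMK => ?_⟩
    obtain ⟨c, hc⟩ := hR M K hMK
    refine ⟨c, fun b hb hbc l => ?_⟩
    obtain ⟨j, hj, h⟩ := hc b hb hbc _ ⟨l, rfl⟩
    rcases hj with rfl | hj
    · exact Or.inl h
    · rw [Set.mem_singleton_iff] at hj
      rw [hj] at h
      exact Or.inr h
  refine ⟨?_, part2, ?_⟩
  · intro z hz1 hz2 σ _ Q T hQ0 hQz hT F hF2 hF C u hu A
    classical
    obtain ⟨R, hR⟩ := main (κ := Σ l : σ, T l) (fun j => (Q j.1).coeff j.2) F hF2 hF
      (fun b j => u b j.1 j.2) (C := C) (fun b hb j => hu b hb _ _) A hz1 hz2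
      {S | ∃ l : σ, S = {j : Σ l : σ, T l | j.1 = l}} (by
        rintro S ⟨l, rfl⟩
        refine alg_root (hQ0 l) (hQz l) fun k => ?_
        by_cases hk : k ∈ T l
        · exact Or.inl (Subfield.subset_closure ⟨⟨l, ⟨k, hk⟩⟩, rfl, rfl⟩)
        · exact Or.inr (hT l k hk))
    refine ⟨R, fun M K hMK => ?_⟩
    obtain ⟨c, hc⟩ := hR M K hMK
    refine ⟨c, fun b hb hbc l => ?_⟩
    obtain ⟨⟨l', k⟩, hj, h⟩ := hc b hb hbc _ ⟨l, rfl⟩
    obtain rfl : l' = l := hj
    exact ⟨k, k.2, h⟩
  · intro F hF2 hF C u v hu hv A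
    obtain ⟨R, hR⟩ := part2 (Real.exp 1) (Or.inl rfl) Unit (fun _ => Real.pi) F hF2 hF C
      (fun b _ => u b) (fun b _ => v b) (fun b hb _ => hu b hb) (fun b hb _ => hv b hb) A
    refine ⟨R, fun M K hMK => ?_⟩
    obtain ⟨c, hc⟩ := hR M K hMK
    exact ⟨c, fun b hb hbc => hc b hb hbc ()⟩

end Pool.Agent.Results.MP_a49cf6_nt.PolynomialCoefficientPredictors
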