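import Mathlib
import Pool.Agent.Run7.h103.PF.Defs

set_option autoImplicit false

/-!
# Predicting the digits of `π + e`, `π - e` and of other forms in independent bases

Let `F` be a finite set of pairwise multiplicatively independent bases, for instance `{2, 10}`, and
consider finitely many pairwise independent forms `α t + β z + γ` with real algebraic coefficients,
where `t` is any real number and `z` a transcendental number which is not a U-number; for instance
`t = π`, `z = e`. We show that for every `A` there is `R` such that for all `M ≥ R (K + 1)`, in all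
bases of `F` but at most one and for all the forms but at most one, every automaton with at most `K`
states which reads the digits one by one and predicts the next one makes more than
`A log (M / (K + 1))` errors among the first `M` digits. (The exceptional base and the exceptional
form may depend on `M` and `K`.) In particular the digits of `π + e` and of `π - e` cannot both be
predicted with few errors in base 2 and in base 10. The same holds for the differences between the
digits and arbitrary words of linear block complexity.

The starting result `MP_c9a594_an/TwoBasePredictors` concerns one number which is irrational and not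
a Liouville number, two coprime bases, and automata with at most `M ^ θ` states, `θ < 1`. Here
nothing is known about the single forms, which may be rational or Liouville numbers. The starting
result `DigitsInTwoBases` for this problem concerns numbers whose digits have `O(n)` different blocks
of length `n`, without errors.

Proof. If two of the forms had good predictors in one base and two of them in another base, for
arbitrarily large `M / (K + 1)`, then along a sequence of scales these numbers would belong to the
fields of represented numbers of the starting files `Pool.Agent.TH796.AL` (subspace theorem with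
moving forms), for two subspaces of characters with trivial intersection. Since `z` is algebraic over
both pairs, it would be a U-number. The representation of numbers with predicted digits is proved
with the terms computed in the starting files `Pool.Agent.R473.TB`.
-/

namespace Pool.Agent.Results.MP_363d4d_nt.PredictorsOfForms

open Pool.Agent.Run7.h103.PF

/-- the form `α t + β z + γ` with the coefficients `f = (α, β, γ)` -/
noncomputable def form (t z : ℝ) (f : ℝ × ℝ × ℝ) : ℝ := f.1 * t + f.2.1 * z + f.2.2

/-- the coefficients are algebraic numbers -/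
def Algebraic (f : ℝ × ℝ × ℝ) : Prop := IsAlgebraic ℚ f.1 ∧ IsAlgebraic ℚ f.2.1 ∧ IsAlgebraic ℚ f.2.2

/-- `α β' ≠ α' β` -/
def Indep (f g : ℝ × ℝ × ℝ) : Prop := f.1 * g.2.1 ≠ g.1 * f.2.1

theorem alg_of_rat {K : Subfield ℝ} {x : ℝ} (h : IsAlgebraic ℚ x) : IsAlgebraic K x :=
  h.extendScalars (R := ℚ) (S := K) (algebraMap ℚ K).injective

lemma alg_pair (t z : ℝ) {f g : ℝ × ℝ × ℝ} (hf : Algebraic f) (hg : Algebraic g) (h : Indep f g) :
    IsAlgebraic (Subfield.closure {form t z f, form t z g}) z := by
  obtain ⟨K, hK⟩ : ∃ K, K = Subfield.closure {form t z f, form t z g} := ⟨_, rfl⟩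
  rw [← hK]
  have h1 : IsAlgebraic K (form t z f) :=
    alg_mem (by rw [hK]; exact Subfield.subset_closure (Or.inl rfl))
  have h2 : IsAlgebraic K (form t z g) :=
    alg_mem (by rw [hK]; exact Subfield.subset_closure (Or.inr rfl))
  have a1 : IsAlgebraic K f.1 := alg_of_rat hf.1
  have a2 : IsAlgebraic K f.2.1 := alg_of_rat hf.2.1
  have a3 : IsAlgebraic K f.2.2 := alg_of_rat hf.2.2
  have b1 : IsAlgebraic K g.1 := alg_of_rat hg.1
  have b2 : IsAlgebraic K g.2.1 := alg_of_rat hg.2.1
  have b3 : IsAlgebraic K g.2.2 := alg_of_rat hg.2.2
  have hd : f.1 * g.2.1 - g.1 * f.2.1 ≠ 0 := sub_ne_zero.2 h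
  have h3 : IsAlgebraic K (f.1 * form t z g - g.1 * form t z f - (f.1 * g.2.2 - g.1 * f.2.2)) :=
    ((a1.mul h2).sub (b1.mul h1)).sub ((a1.mul b3).sub (b1.mul a3))
  have h4 : IsAlgebraic K (f.1 * g.2.1 - g.1 * f.2.1) := (a1.mul b2).sub (b1.mul a2)
  have e : z = (f.1 * form t z g - g.1 * form t z f - (f.1 * g.2.2 - g.1 * f.2.2)) *
      (f.1 * g.2.1 - g.1 * f.2.1)⁻¹ := by
    rw [eq_mul_inv_iff_mul_eq₀ hd]
    unfold form
    ring
  have h5 := h3.mul h4.inv
  rwa [← e] at h5

/-- (1) Let `t` be any real number and let `z` be a transcendental real number which is not a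
U-number. Let `f_i` be finitely many triples of real algebraic numbers, pairwise independent, and
let `y_i` be the forms with these coefficients. Let `F` be a finite set of pairwise multiplicatively
independent bases, let `u b i` be words of linear block complexity over `{0, ..., b - 1}`, and let
`A` be a real number. There is `R` such that for all `M`, `K` with `R (K + 1) ≤ M` there is `c` such
that for all bases `b ∈ F` different from `c` and for all `i ≠ j`, for one `k` of the two indices
`i`, `j` every predictor with at most `K` states which reads the differences between the digits of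
`y_k` in base `b` and the letters of `u b k` makes more than `A log (M / (K + 1))` wrong predictions
among the first `M` places.

(2) The number `z` may be `e`, `π` or the logarithm of a rational number.

(3) Let `a` and `b` be multiplicatively independent. For every `A` there is `R` such that, for all
`M`, `K` with `R (K + 1) ≤ M`, in one of the bases `a` and `b` one of the numbers `π + e`, `π - e`
is such that every predictor with at most `K` states which reads its digits makes more than
`A log (M / (K + 1))` wrong predictions among the first `M` digits. -/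
theorem result :
    (∀ t z : ℝ, Transcendental ℚ z → ¬ UNumber z →
      ∀ (κ : Type) [Fintype κ] (f : κ → ℝ × ℝ × ℝ), (∀ i, Algebraic (f i)) →
      (∀ i j, i ≠ j → Indep (f i) (f j)) →
      ∀ F : Finset ℕ, (∀ b ∈ F, 2 ≤ b) → (∀ b ∈ F, ∀ c ∈ F, b ≠ c → Independent b c) →
      ∀ (C : ℝ) (u : ℕ → κ → ℕ → ℤ), (∀ b ∈ F, ∀ i, SimpleWord b C (u b i)) → ∀ A : ℝ,
      ∃ R : ℕ, ∀ M K : ℕ, R * (K + 1) ≤ M → ∃ c : ℕ, ∀ b ∈ F, b ≠ c → ∀ i j, i ≠ j →
        Unpredictable b (u b i) (form t z (f i)) M K (A * Real.log (M / (K + 1))) ∨
        Unpredictable b (u b j) (form t z (f j)) M K (A * Real.log (M / (K + 1)))) ∧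
    (∀ z : ℝ, (z = Real.exp 1 ∨ z = Real.pi ∨ ∃ q : ℚ, 0 < q ∧ q ≠ 1 ∧ z = Real.log q) →
      Transcendental ℚ z ∧ ¬ UNumber z) ∧
    (∀ a b : ℕ, 2 ≤ a → 2 ≤ b → Independent a b → ∀ A : ℝ,
      ∃ R : ℕ, ∀ M K : ℕ, R * (K + 1) ≤ M →
        (Unpredictable a (fun _ => 0) (Real.pi + Real.exp 1) M K (A * Real.log (M / (K + 1))) ∨
          Unpredictable a (fun _ => 0) (Real.pi - Real.exp 1) M K (A * Real.log (M / (K + 1)))) ∨
        (Unpredictable b (fun _ => 0) (Real.pi + Real.exp 1) M K (A * Real.log (M / (K + 1))) ∨
          Unpredictable b (fun _ => 0) (Real.pi - Real.exp 1) M K (A * Real.log (M / (K + 1))))) := by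
  have part1 : ∀ t z : ℝ, Transcendental ℚ z → ¬ UNumber z →
      ∀ (κ : Type) [Fintype κ] (f : κ → ℝ × ℝ × ℝ), (∀ i, Algebraic (f i)) →
      (∀ i j, i ≠ j → Indep (f i) (f j)) →
      ∀ F : Finset ℕ, (∀ b ∈ F, 2 ≤ b) → (∀ b ∈ F, ∀ c ∈ F, b ≠ c → Independent b c) →
      ∀ (C : ℝ) (u : ℕ → κ → ℕ → ℤ), (∀ b ∈ F, ∀ i, SimpleWord b C (u b i)) → ∀ A : ℝ,
      ∃ R : ℕ, ∀ M K : ℕ, R * (K + 1) ≤ M → ∃ c : ℕ, ∀ b ∈ F, b ≠ c → ∀ i j, i ≠ j →
        Unpredictable b (u b i) (form t z (f i)) M K (A * Real.log (M / (K + 1))) ∨
        Unpredictable b (u b j) (form t z (f j)) M K (A * Real.log (M / (K + 1))) := by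
    intro t z hz hU κ _ f hf hfi F hF2 hF C u hu A
    exact main_pairs (fun i => form t z (f i)) F hF2 hF u hu A hz hU
      (fun i j hij => alg_pair t z (hf i) (hf j) (hfi i j hij))
  refine ⟨part1, fun z hz => special hz, fun a b ha hb hab A => ?_⟩
  have he := special (z := Real.exp 1) (Or.inl rfl)
  have hne : a ≠ b := by
    rintro rfl
    exact absurd (hab 1 1 rfl).1 one_ne_zero
  obtain ⟨R, hR⟩ := part1 Real.pi (Real.exp 1) he.1 he.2 (Fin 2) ![(1, 1, 0), (1, -1, 0)] (by
      intro i
      fin_cases i
      · exact ⟨isAlgebraic_one, isAlgebraic_one, isAlgebraic_zero⟩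
      · exact ⟨isAlgebraic_one, isAlgebraic_one.neg, isAlgebraic_zero⟩) (by
      intro i j hij
      fin_cases i <;> fin_cases j
      · exact absurd rfl hij
      · show (1 : ℝ) * (-1) ≠ 1 * 1
        norm_num
      · show (1 : ℝ) * 1 ≠ 1 * (-1)
        norm_num
      · exact absurd rfl hij) {a, b} (by
      intro d hd
      simp only [Finset.mem_insert, Finset.mem_singleton] at hd
      rcases hd with h | h <;> rw [h] <;> assumption) (by
      intro d hd d' hd' hdd
      simp only [Finset.mem_insert, Finset.mem_singleton] at hd hd'
      rcases hd with h | h <;> rcases hd' with h' | h' <;> rw [h, h'] at hdd ⊢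
      · exact absurd rfl hdd
      · exact hab
      · exact fun k l h => (hab l k h.symm).symm
      · exact absurd rfl hdd)
    1 (fun _ _ _ => 0) (by
      intro d hd i
      simp only [Finset.mem_insert, Finset.mem_singleton] at hd
      rcases hd with h | h <;> rw [h]
      · exact simpleWord_zero ha
      · exact simpleWord_zero hb) A
  have e1 : form Real.pi (Real.exp 1) (1, 1, 0) = Real.pi + Real.exp 1 := by
    unfold form; simp
  have e2 : form Real.pi (Real.exp 1) (1, -1, 0) = Real.pi - Real.exp 1 := by
    unfold form; simp; ring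
  refine ⟨R, fun M K hMK => ?_⟩
  obtain ⟨c, hc⟩ := hR M K hMK
  have hc' : ∀ d ∈ ({a, b} : Finset ℕ), d ≠ c →
      (Unpredictable d (fun _ => 0) (Real.pi + Real.exp 1) M K (A * Real.log (M / (K + 1))) ∨
        Unpredictable d (fun _ => 0) (Real.pi - Real.exp 1) M K (A * Real.log (M / (K + 1)))) := by
    intro d hd hdc
    have h := hc d hd hdc 0 1 (by decide)
    simp only [Matrix.cons_val_zero, Matrix.cons_val_one] at h
    rwa [e1, e2] at h
  by_cases hac : a = c
  · exact Or.inr (hc' b (by simp) (by rw [← hac]; exact hne.symm))
  · exact Or.inl (hc' a (by simp) hac)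

end Pool.Agent.Results.MP_363d4d_nt.PredictorsOfForms
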