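import Mathlib
import Pool.Agent.Run7.h103.PF.Defs
import Pool.Agent.Run7.h103.PF.Over

set_option autoImplicit false

/-!
# Algebraic numbers in fields generated by numbers with predictable digits

Let `x_1, …, x_r` be arbitrary real numbers and `b_1, …, b_r` arbitrary bases (independent or not,
different or not). If the field generated by the `x_i` contains an irrational algebraic number, then
the digits of one of the `x_i` in base `b_i` are unpredictable: for every `A` there is `R` such that
for all `M ≥ R (K + 1)` there is `i` such that every automaton with at most `K` states which reads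
these digits one by one and predicts the next one makes more than `A log (M / (K + 1))` errors among
the first `M` digits. For instance, for every real number `x` and all bases `a`, `b` this is so for
the digits of `x` in base `a` or for the digits of `√2 - x` in base `b`. The same holds for the
differences between the digits and words of linear block complexity, and over every field `F` of real
algebraic numbers, for the algebraic numbers in `F(x_1, …, x_r)` which are not in `F`.

For one number `x_1` which is itself algebraic better bounds are known (`PushdownPredictors` among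
the starting results for this problem); the starting result `LowComplexityFields` is the case of
digits with `O(n)` blocks of length `n`, without errors.

Proof. Otherwise, along a sequence of scales, the `x_i` would be represented numbers in the sense of
the starting files `Pool.Agent.TH796.AL` (subspace theorem with moving forms), and the field
generated by represented numbers is linearly disjoint from the field of algebraic numbers. The
representation of numbers with predicted digits is proved with the terms computed in the starting
files `Pool.Agent.R473.TB`.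
-/

namespace Pool.Agent.Results.MP_5b6025_nt.SumsOfPredictableNumbers

open Pool.Agent.Run7.h103.PF

/-- (1) Let `F` be a field of real algebraic numbers, `y` an algebraic number not in `F`, `κ` a
finite set, and `x_i`, `i ∈ κ`, real numbers such that `y` is in the field generated by `F` and the
`x_i`. Let `b_i` be bases and `u_i` words of linear block complexity over `{0, ..., b_i - 1}`. For
every `A` there is `R` such that for all `M`, `K` with `R (K + 1) ≤ M` there is `i` such that every
predictor with at most `K` states which reads the differences between the digits of `x_i` in base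
`b_i` and the letters of `u_i` makes more than `A log (M / (K + 1))` wrong predictions among the first
`M` places.

(2) Let `y` be an irrational algebraic number. This holds for `x` in base `a` and `y - x` in base
`b`, for every real number `x` and all bases `a`, `b` (and for `x` and `y / x`, if `x ≠ 0`). -/
theorem result :
    (∀ F : Subfield ℝ, (∀ a ∈ F, IsAlgebraic ℚ a) → ∀ y : ℝ, IsAlgebraic ℚ y → y ∉ F →
      ∀ (κ : Type) [Fintype κ] (x : κ → ℝ), y ∈ Subfield.closure ((F : Set ℝ) ∪ Set.range x) →
      ∀ b : κ → ℕ, (∀ i, 2 ≤ b i) → ∀ (C : ℝ) (u : κ → ℕ → ℤ), (∀ i, SimpleWord (b i) C (u i)) →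
      ∀ A : ℝ, ∃ R : ℕ, ∀ M K : ℕ, R * (K + 1) ≤ M →
        ∃ i, Unpredictable (b i) (u i) (x i) M K (A * Real.log (M / (K + 1)))) ∧
    (∀ y : ℝ, IsAlgebraic ℚ y → Irrational y → ∀ x : ℝ, ∀ a b : ℕ, 2 ≤ a → 2 ≤ b →
      ∀ (C : ℝ) (u v : ℕ → ℤ), SimpleWord a C u → SimpleWord b C v → ∀ A : ℝ,
      ∃ R : ℕ, ∀ M K : ℕ, R * (K + 1) ≤ M →
        (Unpredictable a u x M K (A * Real.log (M / (K + 1))) ∨
          Unpredictable b v (y - x) M K (A * Real.log (M / (K + 1)))) ∧
        (x ≠ 0 → (Unpredictable a u x M K (A * Real.log (M / (K + 1))) ∨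
          Unpredictable b v (y / x) M K (A * Real.log (M / (K + 1)))))) := by
  have part1 : ∀ F : Subfield ℝ, (∀ a ∈ F, IsAlgebraic ℚ a) → ∀ y : ℝ, IsAlgebraic ℚ y → y ∉ F →
      ∀ (κ : Type) [Fintype κ] (x : κ → ℝ), y ∈ Subfield.closure ((F : Set ℝ) ∪ Set.range x) →
      ∀ b : κ → ℕ, (∀ i, 2 ≤ b i) → ∀ (C : ℝ) (u : κ → ℕ → ℤ), (∀ i, SimpleWord (b i) C (u i)) →
      ∀ A : ℝ, ∃ R : ℕ, ∀ M K : ℕ, R * (K + 1) ≤ M →
        ∃ i, Unpredictable (b i) (u i) (x i) M K (A * Real.log (M / (K + 1))) := by
    intro F hF y hy hyF κ _ x hyx b hb C u hu A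
    obtain ⟨R, hR⟩ := no_algebraic_over b hb u (fun i => simple_of (hu i)) x A hF hyx hy hyF
    refine ⟨R, fun M K hMK => ?_⟩
    obtain ⟨i, hi⟩ := hR M K hMK
    exact ⟨i, unpredictable_of hi⟩
  refine ⟨part1, fun y hy hirr x a b ha hb C u v hu hv A => ?_⟩
  have hF : ∀ a ∈ (algebraMap ℚ ℝ).fieldRange, IsAlgebraic ℚ a := by
    rintro _ ⟨q, rfl⟩
    exact isAlgebraic_algebraMap q
  have hyF : y ∉ (algebraMap ℚ ℝ).fieldRange := by
    rintro ⟨q, hq⟩
    exact hirr ⟨q, by rw [← hq]; rfl⟩
  have two : ∀ z : ℝ, y ∈ Subfield.closure (Set.range ![x, z]) →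
      ∃ R : ℕ, ∀ M K : ℕ, R * (K + 1) ≤ M →
        Unpredictable a u x M K (A * Real.log (M / (K + 1))) ∨
          Unpredictable b v z M K (A * Real.log (M / (K + 1))) := by
    intro z hz
    obtain ⟨R, hR⟩ := part1 _ hF y hy hyF (Fin 2) ![x, z]
      (Subfield.closure_mono Set.subset_union_right hz) ![a, b] (by
        intro i
        fin_cases i
        · exact ha
        · exact hb) C ![u, v] (by
        intro i
        fin_cases i
        · exact hu
        · exact hv) A
    refine ⟨R, fun M K hMK => ?_⟩
    obtain ⟨i, hi⟩ := hR M K hMK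
    fin_cases i
    · exact Or.inl hi
    · exact Or.inr hi
  have h1 : ∀ z, x ∈ Subfield.closure (Set.range ![x, z]) := fun z =>
    Subfield.subset_closure ⟨0, rfl⟩
  have h2 : ∀ z, z ∈ Subfield.closure (Set.range ![x, z]) := fun z =>
    Subfield.subset_closure ⟨1, rfl⟩
  obtain ⟨R1, hR1⟩ := two (y - x) (by
    have h3 := Subfield.add_mem _ (h1 (y - x)) (h2 (y - x))
    rwa [add_sub_cancel] at h3)
  by_cases hx : x = 0
  · exact ⟨R1, fun M K hMK => ⟨hR1 M K hMK, fun h => absurd hx h⟩⟩
  · obtain ⟨R2, hR2⟩ := two (y / x) (by
      have h3 := Subfield.mul_mem _ (h1 (y / x)) (h2 (y / x))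
      rwa [mul_div_cancel₀ _ hx] at h3)
    refine ⟨max R1 R2, fun M K hMK => ⟨hR1 M K ?_, fun _ => hR2 M K ?_⟩⟩
    · exact (Nat.mul_le_mul_right _ (le_max_left _ _)).trans hMK
    · exact (Nat.mul_le_mul_right _ (le_max_right _ _)).trans hMK

end Pool.Agent.Results.MP_5b6025_nt.SumsOfPredictableNumbers
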