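import Mathlib
import Pool.Agent.Run7.h103.PF.Defs

set_option autoImplicit false

/-!
# Predicting the digits of `π + e`, `π - e`, `π e`, `π / e` in multiplicatively independent bases

Let `F` be a finite set of pairwise multiplicatively independent bases, for instance `{2, 10}`. We
show that finite automata need very many errors to predict the digits of these numbers: for every
`A` there is `R` such that for all `M ≥ R (K + 1)`, in all bases of `F` but at most one and for
three of the four numbers, every automaton with at most `K` states which reads the digits one by one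
and predicts the next one makes more than `A log (M / (K + 1))` errors among the first `M` digits.
(The exceptional base, and in every base the exceptional number, may depend on `M` and `K`.) The same
holds for the differences between the digits and arbitrary words of linear block complexity, and for
`t + e`, `t - e`, `t e`, `t / e` with any real number `t ≠ 0, e, -e`.

The starting result `MP_c9a594_an/TwoBasePredictors` concerns one number which is irrational and not
a Liouville number, two coprime bases, and automata with at most `M ^ θ` states, `θ < 1`. Here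
nothing is known about the single numbers, which may be rational or Liouville numbers.

Proof. If two of the four numbers had good predictors in one base and two of them in another base,
for arbitrarily large `M / (K + 1)`, then along a sequence of scales these numbers would belong to
the fields of represented numbers of the starting files `Pool.Agent.TH796.AL` (subspace theorem with
moving forms), for two subspaces of characters with trivial intersection. Since `e` is algebraic
over both pairs, it would be a U-number. The representation of numbers with predicted digits is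
proved with the terms computed in the starting files `Pool.Agent.R473.TB`.
-/

namespace Pool.Agent.Results.MP_a2f59b_nt.ThreeOfFourPredictors

open Pool.Agent.Run7.h103.PF

/-- the numbers `t + e`, `t - e`, `t e`, `t / e` -/
noncomputable def num (t : ℝ) : Fin 4 → ℝ :=
  ![t + Real.exp 1, t - Real.exp 1, t * Real.exp 1, t / Real.exp 1]

lemma alg_lt (t : ℝ) (h0 : t ≠ 0) (h1 : t ≠ Real.exp 1) (h2 : t ≠ -Real.exp 1) {K : Subfield ℝ}
    {i j : Fin 4} (hij : i < j) (hi : num t i ∈ K) (hj : num t j ∈ K) :
    IsAlgebraic K (Real.exp 1) := by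
  have he := Real.exp_ne_zero 1
  obtain ⟨e, hee⟩ : ∃ e, e = Real.exp 1 := ⟨_, rfl⟩
  unfold num at hi hj
  rw [← hee] at h1 h2 hi hj he ⊢
  have h2K : (2 : ℝ) ∈ K := by
    have := natCast_mem K 2
    exact_mod_cast this
  fin_cases i <;> fin_cases j <;> first | exact absurd hij (by decide) | skip
  · -- `t + e`, `t - e`
    have ha : t + e ∈ K := hi
    have hb : t - e ∈ K := hj
    refine alg_mem ?_
    have e1 : e = ((t + e) - (t - e)) / 2 := by ring
    rw [e1]
    exact K.div_mem (K.sub_mem ha hb) h2K
  · -- `t + e`, `t e`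
    have ha : t + e ∈ K := hi
    have hb : t * e ∈ K := hj
    exact alg_quad (K.neg_mem ha) hb (by ring)
  · -- `t + e`, `t / e`
    have ha : t + e ∈ K := hi
    have hb : t / e ∈ K := hj
    refine alg_mem ?_
    have h3 : 1 + t / e ≠ 0 := by
      intro h
      apply h2
      field_simp at h
      linarith
    have e1 : e = (t + e) / (1 + t / e) := by
      rw [eq_div_iff h3]
      field_simp
      ring
    rw [e1]
    exact K.div_mem ha (K.add_mem K.one_mem hb)
  · -- `t - e`, `t e`
    have ha : t - e ∈ K := hi
    have hb : t * e ∈ K := hj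
    exact alg_quad ha (K.neg_mem hb) (by ring)
  · -- `t - e`, `t / e`
    have ha : t - e ∈ K := hi
    have hb : t / e ∈ K := hj
    refine alg_mem ?_
    have h3 : t / e - 1 ≠ 0 := by
      intro h
      apply h1
      field_simp at h
      linarith
    have e1 : e = (t - e) / (t / e - 1) := by
      rw [eq_div_iff h3]
      field_simp
    rw [e1]
    exact K.div_mem ha (K.sub_mem hb K.one_mem)
  · -- `t e`, `t / e`
    have ha : t * e ∈ K := hi
    have hb : t / e ∈ K := hj
    have h3 : t / e ≠ 0 := div_ne_zero h0 he
    refine alg_quad K.zero_mem (K.neg_mem (K.div_mem ha hb)) ?_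
    field_simp
    ring

lemma alg_pair (t : ℝ) (h0 : t ≠ 0) (h1 : t ≠ Real.exp 1) (h2 : t ≠ -Real.exp 1)
    (i j : Fin 4) (hij : i ≠ j) :
    IsAlgebraic (Subfield.closure {num t i, num t j}) (Real.exp 1) := by
  have hi : num t i ∈ Subfield.closure {num t i, num t j} := Subfield.subset_closure (Or.inl rfl)
  have hj : num t j ∈ Subfield.closure {num t i, num t j} := Subfield.subset_closure (Or.inr rfl)
  rcases lt_or_gt_of_ne hij with h | h
  · exact alg_lt t h0 h1 h2 h hi hj
  · exact alg_lt t h0 h1 h2 h hj hi

/-- Let `F` be a finite set of pairwise multiplicatively independent bases, let `u b i` be words of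
linear block complexity over `{0, ..., b - 1}`, and let `A` be a real number.

(1) Let `t ≠ 0, e, -e` be a real number. There is `R` such that for all `M`, `K` with
`R (K + 1) ≤ M` there is `c` such that for all bases `b ∈ F` different from `c` there is `i₀` such
that for the three numbers `y_i`, `i ≠ i₀`, among `t + e`, `t - e`, `t e`, `t / e`: every predictor
with at most `K` states which reads the differences between the digits of `y_i` in base `b` and the
letters of `u b i` makes more than `A log (M / (K + 1))` wrong predictions among the first `M` places.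

(2) This holds for `π + e`, `π - e`, `π e`, `π / e`.

(3) Let `a` and `b` be multiplicatively independent. There is `R` such that, for all `M`, `K` with
`R (K + 1) ≤ M`, in one of the bases `a` and `b` three of the numbers `π + e`, `π - e`, `π e`,
`π / e` are such that every predictor with at most `K` states which reads their digits makes more
than `A log (M / (K + 1))` wrong predictions among the first `M` digits. -/
theorem result :
    (∀ t : ℝ, t ≠ 0 → t ≠ Real.exp 1 → t ≠ -Real.exp 1 →
      ∀ F : Finset ℕ, (∀ b ∈ F, 2 ≤ b) → (∀ b ∈ F, ∀ c ∈ F, b ≠ c → Independent b c) →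
      ∀ (C : ℝ) (u : ℕ → Fin 4 → ℕ → ℤ), (∀ b ∈ F, ∀ i, SimpleWord b C (u b i)) → ∀ A : ℝ,
      ∃ R : ℕ, ∀ M K : ℕ, R * (K + 1) ≤ M → ∃ c : ℕ, ∀ b ∈ F, b ≠ c → ∃ i₀ : Fin 4, ∀ i ≠ i₀,
        Unpredictable b (u b i) (num t i) M K (A * Real.log (M / (K + 1)))) ∧
    (∀ F : Finset ℕ, (∀ b ∈ F, 2 ≤ b) → (∀ b ∈ F, ∀ c ∈ F, b ≠ c → Independent b c) →
      ∀ (C : ℝ) (u : ℕ → Fin 4 → ℕ → ℤ), (∀ b ∈ F, ∀ i, SimpleWord b C (u b i)) → ∀ A : ℝ,
      ∃ R : ℕ, ∀ M K : ℕ, R * (K + 1) ≤ M → ∃ c : ℕ, ∀ b ∈ F, b ≠ c → ∃ i₀ : Fin 4, ∀ i ≠ i₀,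
        Unpredictable b (u b i) (num Real.pi i) M K (A * Real.log (M / (K + 1)))) ∧
    (∀ a b : ℕ, 2 ≤ a → 2 ≤ b → Independent a b → ∀ A : ℝ,
      ∃ R : ℕ, ∀ M K : ℕ, R * (K + 1) ≤ M →
        (∃ i₀ : Fin 4, ∀ i ≠ i₀,
          Unpredictable a (fun _ => 0) (num Real.pi i) M K (A * Real.log (M / (K + 1)))) ∨
        (∃ i₀ : Fin 4, ∀ i ≠ i₀,
          Unpredictable b (fun _ => 0) (num Real.pi i) M K (A * Real.log (M / (K + 1))))) := by
  have he := special (z := Real.exp 1) (Or.inl rfl)
  have part1 : ∀ t : ℝ, t ≠ 0 → t ≠ Real.exp 1 → t ≠ -Real.exp 1 →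
      ∀ F : Finset ℕ, (∀ b ∈ F, 2 ≤ b) → (∀ b ∈ F, ∀ c ∈ F, b ≠ c → Independent b c) →
      ∀ (C : ℝ) (u : ℕ → Fin 4 → ℕ → ℤ), (∀ b ∈ F, ∀ i, SimpleWord b C (u b i)) → ∀ A : ℝ,
      ∃ R : ℕ, ∀ M K : ℕ, R * (K + 1) ≤ M → ∃ c : ℕ, ∀ b ∈ F, b ≠ c → ∃ i₀ : Fin 4, ∀ i ≠ i₀,
        Unpredictable b (u b i) (num t i) M K (A * Real.log (M / (K + 1))) := by
    intro t h0 h1 h2 F hF2 hF C u hu A
    obtain ⟨R, hR⟩ := main_pairs (num t) F hF2 hF u hu A he.1 he.2
      (fun i j hij => alg_pair t h0 h1 h2 i j hij)
    refine ⟨R, fun M K hMK => ?_⟩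
    obtain ⟨c, hc⟩ := hR M K hMK
    refine ⟨c, fun b hb hbc => ?_⟩
    by_cases hex : ∃ i₀, ¬ Unpredictable b (u b i₀) (num t i₀) M K (A * Real.log (M / (K + 1)))
    · obtain ⟨i₀, hi₀⟩ := hex
      exact ⟨i₀, fun i hi => (hc b hb hbc i i₀ hi).resolve_right hi₀⟩
    · push Not at hex
      exact ⟨0, fun i _ => hex i⟩
  have he1 := Real.exp_pos 1
  have he2 := Real.exp_one_lt_d9
  have hpi := Real.pi_gt_three
  have part2 := part1 Real.pi Real.pi_ne_zero (by linarith) (by linarith)
  refine ⟨part1, part2, fun a b ha hb hab A => ?_⟩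
  have hne : a ≠ b := by
    rintro rfl
    exact absurd (hab 1 1 rfl).1 one_ne_zero
  obtain ⟨R, hR⟩ := part2 {a, b} (by
      intro d hd
      simp only [Finset.mem_insert, Finset.mem_singleton] at hd
      rcases hd with h | h <;> rw [h] <;> assumption) (by
      intro d hd d' hd' hdd
      simp only [Finset.mem_insert, Finset.mem_singleton] at hd hd'
      rcases hd with h | h <;> rcases hd' with h' | h' <;> rw [h, h'] at hdd ⊢
      · exact absurd rfl hdd
      · exact hab
      · exact fun k l h => (hab l k h.symm).symm
      · exact absurd rfl hdd)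
    1 (fun _ _ _ => 0) (by
      intro d hd i
      simp only [Finset.mem_insert, Finset.mem_singleton] at hd
      rcases hd with h | h <;> rw [h]
      · exact simpleWord_zero ha
      · exact simpleWord_zero hb) A
  refine ⟨R, fun M K hMK => ?_⟩
  obtain ⟨c, hc⟩ := hR M K hMK
  by_cases hac : a = c
  · exact Or.inr (hc b (by simp) (by rw [← hac]; exact hne.symm))
  · exact Or.inl (hc a (by simp) hac)

end Pool.Agent.Results.MP_a2f59b_nt.ThreeOfFourPredictors
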